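import Mathlib

set_option linter.unusedSimpArgs false
set_option linter.unusedVariables false

namespace Pool.Agent.H.MP_5069ae_gt
open Set

noncomputable def Z (u : ℝ) : ℝ := 2 * |u / 2 - round (u / 2)|

lemma Z_eq (u : ℝ) : Z u = |u - 2 * (round (u / 2) : ℤ)| := by
  unfold Z
  rw [show u - 2 * ((round (u / 2) : ℤ) : ℝ) = 2 * (u / 2 - round (u / 2)) by ring, abs_mul]
  norm_num

lemma Z_le (u : ℝ) (m : ℤ) : Z u ≤ |u - 2 * m| := by
  unfold Z
  rw [show u - 2 * (m : ℝ) = 2 * (u / 2 - m) by ring, abs_mul]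
  have := round_le (u / 2) m
  norm_num
  linarith

lemma Z_nonneg (u : ℝ) : 0 ≤ Z u := by unfold Z; positivity
lemma Z_le_one (u : ℝ) : Z u ≤ 1 := by
  unfold Z; have := abs_sub_round (u / 2); linarith
lemma Z_zero : Z 0 = 0 := by simp [Z]

lemma Z_lip (u v : ℝ) : |Z u - Z v| ≤ |u - v| := by
  have h : ∀ u v : ℝ, Z u - Z v ≤ |u - v| := by
    intro u v
    have h1 := Z_le u (round (v / 2))
    have h2 := Z_eq v
    have h3 := abs_add_le (u - v) (v - 2 * ((round (v / 2) : ℤ) : ℝ))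
    rw [show u - v + (v - 2 * ((round (v / 2) : ℤ) : ℝ)) = u - 2 * ((round (v / 2) : ℤ) : ℝ) by ring]
      at h3
    linarith
  rw [abs_le]
  have := h u v
  have := h v u
  rw [abs_sub_comm] at this
  constructor <;> linarith

lemma cont_of_lip {f : ℝ → ℝ} (h : ∀ u v, |f u - f v| ≤ |u - v|) : Continuous f :=
  (LipschitzWith.of_dist_le_mul (K := 1) fun u v => by
    simpa [Real.dist_eq] using h u v).continuous

lemma Z_cont : Continuous Z := cont_of_lip Z_lip

lemma Zleg (m : ℤ) : ∃ s : ℝ, (s = 1 ∨ s = -1) ∧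
    ∀ u : ℝ, m ≤ u → u ≤ m + 1 → Z u = 1 / 2 + s * (u - m - 1 / 2) := by
  have key : ∀ (k : ℤ) (u : ℝ), min (u - 2 * k) (2 * k + 2 - u) ≤ Z u := by
    intro k u
    rw [Z_eq]
    rcases le_or_gt (round (u / 2)) k with h | h
    · have : ((round (u / 2) : ℤ) : ℝ) ≤ k := by exact_mod_cast h
      exact (min_le_left _ _).trans (le_trans (by linarith) (le_abs_self _))
    · have : (k : ℝ) + 1 ≤ ((round (u / 2) : ℤ) : ℝ) := by exact_mod_cast h
      exact (min_le_right _ _).trans (le_trans (by linarith) (neg_le_abs _))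
  rcases Int.even_or_odd' m with ⟨k, rfl | rfl⟩
  · refine ⟨1, Or.inl rfl, fun u h1 h2 => ?_⟩
    push_cast at h1 h2 ⊢
    have a1 := Z_le u k
    have a2 := key k u
    rw [abs_of_nonneg (by linarith)] at a1
    rw [min_eq_left (by linarith)] at a2
    linarith
  · refine ⟨-1, Or.inr rfl, fun u h1 h2 => ?_⟩
    push_cast at h1 h2 ⊢
    have a1 := Z_le u (k + 1)
    have a2 := key k u
    push_cast at a1
    rw [abs_of_nonpos (by linarith)] at a1
    rw [min_eq_right (by linarith)] at a2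
    linarith

noncomputable def T (j : ℕ) : ℝ := 3 ^ (j + 1)
lemma T_pos (j : ℕ) : 0 < T j := by unfold T; positivity
lemma T_ge (j : ℕ) : 3 ≤ T j := by
  unfold T; rw [pow_succ]; have : (1 : ℝ) ≤ 3 ^ j := one_le_pow₀ (by norm_num); linarith
lemma T_succ (j : ℕ) : T (j + 1) = 3 * T j := by unfold T; ring

noncomputable def g (j : ℕ) (l : ℝ) : ℝ := l / 3000 + (2999 / 3000) * T j * Z (l / T j)

lemma TZ_lip (j : ℕ) (c a b : ℝ) : |T j * Z (a / T j + c) - T j * Z (b / T j + c)| ≤ |a - b| := by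
  have h := Z_lip (a / T j + c) (b / T j + c)
  have hT := T_pos j
  rw [← mul_sub, abs_mul, abs_of_pos hT]
  rw [show a / T j + c - (b / T j + c) = (a - b) / T j by ring, abs_div, abs_of_pos hT,
    le_div_iff₀ hT] at h
  linarith

lemma g_lip (j : ℕ) (a b : ℝ) : |g j a - g j b| ≤ |a - b| := by
  have h := TZ_lip j 0 a b
  simp only [add_zero] at h
  unfold g
  rw [abs_le] at h ⊢
  have h1 := le_abs_self (a - b)
  have h2 := neg_abs_le (a - b)
  constructor <;> nlinarith [h.1, h.2]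

lemma g_cont (j : ℕ) : Continuous (g j) := cont_of_lip (g_lip j)

lemma g_leg (j : ℕ) (m : ℤ) (a b : ℝ) (h1 : m ≤ a / T j) (h2 : a ≤ b) (h3 : b / T j ≤ m + 1) :
    (2 / 3) * (b - a) ≤ |g j a - g j b| := by
  have hT := T_pos j
  obtain ⟨s, hs, h⟩ := Zleg m
  have hab : a / T j ≤ b / T j := by gcongr
  have e1 := h (a / T j) h1 (by linarith)
  have e2 := h (b / T j) (by linarith) h3
  have e : g j a - g j b = (1 / 3000 + (2999 / 3000) * s) * (a - b) := by
    unfold g; rw [e1, e2]; field_simp; ring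
  rw [e]
  rcases hs with rfl | rfl
  · rw [abs_of_nonpos (by nlinarith)]; nlinarith
  · rw [abs_of_nonneg (by nlinarith)]; nlinarith

noncomputable def G : ℕ → ℝ → ℝ
  | 0 => id
  | j + 1 => G j ∘ g (j + 1)

lemma G_lip (j : ℕ) : ∀ a b : ℝ, |G j a - G j b| ≤ |a - b| := by
  induction j with
  | zero => intro a b; exact le_rfl
  | succ j ih => intro a b; exact (ih _ _).trans (g_lip _ a b)

lemma G_big (j : ℕ) : ∀ α : ℝ, ∃ v ∈ Icc α (α + 2 * T j), ∃ w ∈ Icc α (α + 2 * T j),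
    6 ≤ |G j v - G j w| := by
  induction j with
  | zero =>
    intro α
    refine ⟨α, ⟨le_rfl, by linarith [T_pos 0]⟩, α + 2 * T 0, ⟨by linarith [T_pos 0], le_rfl⟩, ?_⟩
    simp [G, T]; norm_num
  | succ j ih =>
    intro α
    have hT := T_pos (j + 1)
    set m := ⌈α / T (j + 1)⌉ with hm
    have m1 : α / T (j + 1) ≤ m := Int.le_ceil _
    have m2 : (m : ℝ) < α / T (j + 1) + 1 := Int.ceil_lt_add_one _
    have m1' : α ≤ m * T (j + 1) := by rwa [div_le_iff₀ hT] at m1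
    have m2' : m * T (j + 1) ≤ α + T (j + 1) := by
      have := mul_le_mul_of_nonneg_right m2.le hT.le
      rwa [add_mul, div_mul_cancel₀ _ hT.ne', one_mul] at this
    have hl := g_leg (j + 1) m (m * T (j + 1)) ((m + 1) * T (j + 1))
      (by rw [mul_div_cancel_right₀ _ hT.ne']) (by nlinarith)
      (by rw [mul_div_cancel_right₀ _ hT.ne'])
    obtain ⟨v, hv, w, hw, h⟩ := ih (min (g (j + 1) (m * T (j + 1))) (g (j + 1) ((m + 1) * T (j + 1))))
    have hsub : Icc (min (g (j + 1) (m * T (j + 1))) (g (j + 1) ((m + 1) * T (j + 1))))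
        (min (g (j + 1) (m * T (j + 1))) (g (j + 1) ((m + 1) * T (j + 1))) + 2 * T j) ⊆
        g (j + 1) '' Icc α (α + 2 * T (j + 1)) := by
      have h1 := intermediate_value_uIcc (a := m * T (j + 1)) (b := (m + 1) * T (j + 1))
        (g_cont (j + 1)).continuousOn
      refine Subset.trans ?_ (h1.trans (image_mono ?_))
      · refine Icc_subset_Icc le_rfl ?_
        have := max_sub_min_eq_abs' (g (j + 1) (m * T (j + 1))) (g (j + 1) ((m + 1) * T (j + 1)))
        have h3 := T_succ j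
        show _ ≤ max _ _
        nlinarith
      · rw [uIcc_of_le (by nlinarith)]
        exact Icc_subset_Icc m1' (by nlinarith)
    obtain ⟨v', hv', rfl⟩ := hsub hv
    obtain ⟨w', hw', rfl⟩ := hsub hw
    exact ⟨v', hv', w', hw', h⟩

/-! noise lemma -/

noncomputable def Y (φ : ℕ → ℝ → ℂ) (c : ℕ) (σ : ℕ → ℝ) : ℂ :=
  ∑' m, if m % 2 = c then ((1 / 1000 : ℝ) ^ m : ℝ) * φ m (σ m) else 0

def Good (φ : ℕ → ℝ → ℂ) : Prop :=
  (∀ m u, ‖φ m u‖ ≤ 1) ∧ ∀ m u v, ‖φ m u - φ m v‖ ≤ 4000 ^ m * |u - v|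

lemma term_le {φ : ℕ → ℝ → ℂ} (h : Good φ) (c m : ℕ) (u : ℝ) :
    ‖(if m % 2 = c then ((1 / 1000 : ℝ) ^ m : ℝ) * φ m u else 0 : ℂ)‖ ≤ (1 / 1000 : ℝ) ^ m := by
  split_ifs
  · rw [norm_mul, Complex.norm_real, Real.norm_of_nonneg (by positivity)]
    exact mul_le_of_le_one_right (by positivity) (h.1 m u)
  · simp

lemma geo : Summable fun m : ℕ => (1 / 1000 : ℝ) ^ m :=
  summable_geometric_of_lt_one (by norm_num) (by norm_num)

lemma Good.cont {φ : ℕ → ℝ → ℂ} (h : Good φ) (m : ℕ) : Continuous (φ m) :=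
  (LipschitzWith.of_dist_le_mul (K := 4000 ^ m) fun u v => by
    simpa [Real.dist_eq, dist_eq_norm] using h.2 m u v).continuous

lemma Y_cont {φ : ℕ → ℝ → ℂ} (h : Good φ) (c : ℕ) : Continuous (Y φ c) := by
  refine continuous_tsum (fun m => ?_) geo fun m σ => term_le h c m _
  split_ifs
  · exact continuous_const.mul ((h.cont m).comp (continuous_apply m))
  · exact continuous_const

lemma noise {φ : ℕ → ℝ → ℂ} (h : Good φ) (j : ℕ) (σ τ : ℕ → ℝ) (D : ℝ) (hD0 : 0 ≤ D)
    (hD : ∀ m < j, |σ m - τ m| ≤ D)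
    (hY : ‖Y φ (j % 2) σ - Y φ (j % 2) τ‖ ≤ 2 * (1 / 1000) ^ (j + 2)) :
    ‖φ j (σ j) - φ j (τ j)‖ ≤ 5 / 1000000 + D * 4000 ^ j / 12 := by
  let t : (ℕ → ℝ) → ℕ → ℂ := fun σ m =>
    if m % 2 = j % 2 then ((1 / 1000 : ℝ) ^ m : ℝ) * φ m (σ m) else 0
  have hs : ∀ σ, Summable (t σ) := fun σ => Summable.of_norm_bounded geo fun m => term_le h _ m _
  let d : ℕ → ℂ := fun m => t σ m - t τ m
  have hd : Summable d := (hs σ).sub (hs τ)
  have e1 : Y φ (j % 2) σ - Y φ (j % 2) τ = ∑' m, d m := ((hs σ).tsum_sub (hs τ)).symm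
  have e2 := hd.sum_add_tsum_nat_add (j + 2)
  rw [Finset.sum_range_succ, Finset.sum_range_succ] at e2
  have e3 : d (j + 1) = 0 := by
    have : ¬ (j + 1) % 2 = j % 2 := by omega
    simp [d, t, this]
  have e4 : d j = ((1 / 1000 : ℝ) ^ j : ℝ) * (φ j (σ j) - φ j (τ j)) := by
    simp only [d, t, if_true]; ring
  have b1 : ‖∑' m, d (m + (j + 2))‖ ≤ 3 * (1 / 1000) ^ (j + 2) := by
    have hg : HasSum (fun m : ℕ => 2 * (1 / 1000 : ℝ) ^ (j + 2) * (1 / 1000 : ℝ) ^ m)
        (2 * (1 / 1000 : ℝ) ^ (j + 2) * (1 - 1 / 1000)⁻¹) :=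
      (hasSum_geometric_of_lt_one (by norm_num) (by norm_num)).mul_left _
    refine (tsum_of_norm_bounded hg fun m => ?_).trans ?_
    · refine (norm_sub_le _ _).trans ?_
      have a1 := term_le h (j % 2) (m + (j + 2)) (σ (m + (j + 2)))
      have a2 := term_le h (j % 2) (m + (j + 2)) (τ (m + (j + 2)))
      have a3 : (1 / 1000 : ℝ) ^ (m + (j + 2)) = (1 / 1000 : ℝ) ^ (j + 2) * (1 / 1000) ^ m := by
        ring
      simp only [t]
      linarith
    · have : (0 : ℝ) < (1 / 1000 : ℝ) ^ (j + 2) := by positivity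
      rw [show ((1 : ℝ) - 1 / 1000)⁻¹ = 1000 / 999 by norm_num]
      linarith
  have hdm : ∀ m < j, ‖d m‖ ≤ D * 4 ^ m := by
    intro m hm
    simp only [d, t]
    split_ifs
    · rw [← mul_sub, norm_mul, Complex.norm_real, Real.norm_of_nonneg (by positivity)]
      have a1 := (h.2 m (σ m) (τ m)).trans
        (mul_le_mul_of_nonneg_left (hD m hm) (by positivity))
      have a2 : (1 / 1000 : ℝ) ^ m * (4000 ^ m * D) = D * 4 ^ m := by
        rw [← mul_assoc, ← mul_pow]; norm_num; ring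
      rw [← a2]
      exact mul_le_mul_of_nonneg_left a1 (by positivity)
    · simp; positivity
  have b2 : ‖∑ m ∈ Finset.range j, d m‖ ≤ D * 4 ^ j / 12 := by
    cases j with
    | zero => simp; positivity
    | succ k =>
      have e5 : d k = 0 := by
        have : ¬ k % 2 = (k + 1) % 2 := by omega
        simp [d, t, this]
      rw [Finset.sum_range_succ, e5, add_zero]
      have : ∀ i ≤ k, ‖∑ m ∈ Finset.range i, d m‖ ≤ D * 4 ^ i / 3 := by
        intro i
        induction i with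
        | zero => intro _; simp; positivity
        | succ i ih =>
          intro hi
          rw [Finset.sum_range_succ]
          have a1 := ih (by omega)
          have a2 := hdm i (by omega)
          have a3 := norm_add_le (∑ m ∈ Finset.range i, d m) (d i)
          rw [pow_succ]; linarith
      have := this k le_rfl
      rw [pow_succ]; linarith
  have e6 : d j = (Y φ (j % 2) σ - Y φ (j % 2) τ) - ∑ m ∈ Finset.range j, d m -
      ∑' m, d (m + (j + 2)) := by
    rw [e1, ← e2, e3]; ring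
  have b3 : ‖d j‖ ≤ 5 * (1 / 1000) ^ (j + 2) + D * 4 ^ j / 12 := by
    rw [e6]
    have a1 := norm_sub_le ((Y φ (j % 2) σ - Y φ (j % 2) τ) - ∑ m ∈ Finset.range j, d m)
      (∑' m, d (m + (j + 2)))
    have a2 := norm_sub_le (Y φ (j % 2) σ - Y φ (j % 2) τ) (∑ m ∈ Finset.range j, d m)
    linarith
  rw [e4, norm_mul, Complex.norm_real, Real.norm_of_nonneg (by positivity)] at b3
  have hp : (0 : ℝ) < (1 / 1000 : ℝ) ^ j := by positivity
  have e7 : 5 * (1 / 1000 : ℝ) ^ (j + 2) + D * 4 ^ j / 12 =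
      (1 / 1000 : ℝ) ^ j * (5 / 1000000 + D * 4000 ^ j / 12) := by
    have : (4 : ℝ) ^ j = (1 / 1000 : ℝ) ^ j * 4000 ^ j := by rw [← mul_pow]; norm_num
    rw [this]; ring
  rw [e7] at b3
  exact le_of_mul_le_mul_left b3 hp

end Pool.Agent.H.MP_5069ae_gt
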