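import Pool.Agent.H.MP_5069ae_gt.A

set_option linter.unusedSimpArgs false
set_option linter.unusedVariables false

namespace Pool.Agent.H.MP_5069ae_gt
open Set

noncomputable def E (x : ℝ) : ℂ := Complex.exp (Complex.I * x)

lemma E_norm (x : ℝ) : ‖E x‖ = 1 := by
  unfold E; rw [mul_comm]; exact Complex.norm_exp_ofReal_mul_I x

lemma E_sub (x y : ℝ) : ‖E x - E y‖ = 2 * |Real.sin ((x - y) / 2)| := by
  have : E x - E y = E y * (Complex.exp (Complex.I * ((x - y : ℝ) : ℂ)) - 1) := by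
    unfold E
    rw [mul_sub, ← Complex.exp_add]
    push_cast
    congr 1
    · congr 1; ring
    · ring
  rw [this, norm_mul, E_norm, one_mul, Complex.norm_exp_I_mul_ofReal_sub_one, Real.norm_eq_abs,
    abs_mul]
  norm_num

lemma E_up (x y : ℝ) : ‖E x - E y‖ ≤ |x - y| := by
  rw [E_sub]
  have := Real.abs_sin_le_abs (x := (x - y) / 2)
  rw [abs_div] at this
  norm_num at this
  linarith

lemma E_low (x y : ℝ) (h : |x - y| ≤ 3) : 3 / 5 * |x - y| ≤ ‖E x - E y‖ := by
  rw [E_sub]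
  have hpi := Real.pi_gt_three
  have hpi2 := Real.pi_lt_d2
  have h1 : 2 / Real.pi * (|x - y| / 2) ≤ Real.sin (|x - y| / 2) :=
    Real.mul_le_sin (by positivity) (by linarith)
  have h2 : Real.sin (|x - y| / 2) ≤ |Real.sin ((x - y) / 2)| := by
    rcases abs_cases (x - y) with k | k
    · rw [k.1]; exact le_abs_self _
    · rw [k.1, neg_div, Real.sin_neg]; exact neg_le_abs _
  have h3 : 3 / 5 ≤ 2 / Real.pi := by
    rw [le_div_iff₀ (by linarith)]; linarith
  have h4 : 0 ≤ |x - y| := abs_nonneg _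
  nlinarith

noncomputable def cl (x : ℝ) : ℝ := max (-1) (min 1 x)

lemma cl_lip (x y : ℝ) : |cl x - cl y| ≤ |x - y| := by
  unfold cl
  refine (abs_max_sub_max_le_max _ _ _ _).trans (max_le (by simp) ?_)
  exact (abs_min_sub_min_le_max _ _ _ _).trans (max_le (by simp) le_rfl)

lemma cl_abs (x : ℝ) : |cl x| ≤ 1 := by
  unfold cl
  rw [abs_le]
  exact ⟨le_max_left _ _, max_le (by norm_num) (min_le_left _ _)⟩

lemma cl_sep {x y : ℝ} (hx : x ≤ 0) (hy : 0 ≤ y) (h : |cl x - cl y| ≤ 1 / 2) : y - x ≤ 1 / 2 := by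
  unfold cl at h
  rw [abs_le] at h
  have h1 := h.1
  rw [min_eq_right (by linarith : x ≤ 1), max_eq_right (le_min (by norm_num) (by linarith) :
    (-1 : ℝ) ≤ min 1 y)] at h1
  rcases max_cases (-1 : ℝ) x with a | a <;> rcases min_cases (1 : ℝ) y with b | b <;>
    rw [a.1, b.1] at h1 <;> linarith

noncomputable def ph (f : ℕ) (m : ℕ) (u : ℝ) : ℂ :=
  if f = 0 then E (4000 ^ m * u) else if f = 1 then E (u / (4 * T m))
  else (cl (4000 ^ m * (T m * Z (u / T m + 1 / 2) - T m / 2)) : ℝ)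

lemma ph_good (f : ℕ) : Good (ph f) := by
  have hp : ∀ m : ℕ, (1 : ℝ) ≤ 4000 ^ m := fun m => one_le_pow₀ (by norm_num)
  constructor
  · intro m u
    unfold ph
    split_ifs
    · exact (E_norm _).le
    · exact (E_norm _).le
    · rw [Complex.norm_real]; exact cl_abs _
  · intro m u v
    unfold ph
    split_ifs
    · refine (E_up _ _).trans ?_
      rw [← mul_sub, abs_mul, abs_of_pos (by positivity)]
    · refine (E_up _ _).trans ?_
      have := T_ge m
      rw [← sub_div, abs_div, abs_of_pos (by linarith : 0 < 4 * T m)]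
      refine (div_le_self (abs_nonneg _) (by linarith)).trans ?_
      exact le_mul_of_one_le_left (abs_nonneg _) (hp m)
    · rw [← Complex.ofReal_sub, Complex.norm_real, Real.norm_eq_abs]
      refine (cl_lip _ _).trans ?_
      rw [← mul_sub, abs_mul, abs_of_pos (by positivity)]
      have := TZ_lip m (1 / 2) u v
      rw [show T m * Z (u / T m + 1 / 2) - T m / 2 - (T m * Z (v / T m + 1 / 2) - T m / 2) =
        T m * Z (u / T m + 1 / 2) - T m * Z (v / T m + 1 / 2) by ring]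
      gcongr

def Rel (σ : ℕ → ℝ) : Prop := ∀ j, σ j = g (j + 1) (σ (j + 1))

noncomputable def zt (σ : ℕ → ℝ) (j : ℕ) : ℝ :=
  (1 / 3000) ^ j * ((2999 / 3000) * T (j + 1) * Z (σ (j + 1) / T (j + 1)))

noncomputable def zz (σ : ℕ → ℝ) : ℝ := σ 0 - ∑' j, zt σ j

lemma zt_nonneg (σ : ℕ → ℝ) (j : ℕ) : 0 ≤ zt σ j := by
  unfold zt; have := T_pos (j + 1); have := Z_nonneg (σ (j + 1) / T (j + 1)); positivity

lemma pw (j : ℕ) : (1 / 3000 : ℝ) ^ j * 3 ^ j = (1 / 1000) ^ j := by rw [← mul_pow]; norm_num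

lemma zt_le (σ : ℕ → ℝ) (j : ℕ) : ‖zt σ j‖ ≤ 9 * (1 / 1000) ^ j := by
  rw [Real.norm_of_nonneg (zt_nonneg σ j)]
  unfold zt
  have h1 := Z_le_one (σ (j + 1) / T (j + 1))
  have h2 := T_pos (j + 1)
  have h3 : (2999 / 3000) * T (j + 1) * Z (σ (j + 1) / T (j + 1)) ≤ T (j + 1) := by nlinarith
  refine (mul_le_mul_of_nonneg_left h3 (by positivity)).trans (le_of_eq ?_)
  rw [← pw]; unfold T; ring

lemma zt_sum (σ : ℕ → ℝ) : Summable (zt σ) :=
  Summable.of_norm_bounded (geo.mul_left 9) (zt_le σ)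

lemma zz_cont : Continuous zz := by
  refine (continuous_apply 0).sub (continuous_tsum (fun j => ?_) (geo.mul_left 9)
    fun j σ => zt_le σ j)
  unfold zt
  exact continuous_const.mul (continuous_const.mul
    (Z_cont.comp ((continuous_apply (j + 1)).div_const _)))

lemma zz_near {σ : ℕ → ℝ} (h : Rel σ) (n : ℕ) :
    0 ≤ (1 / 3000) ^ n * σ n - zz σ ∧ (1 / 3000) ^ n * σ n - zz σ ≤ 10 * (1 / 1000) ^ n := by
  have e1 : ∀ n, (1 / 3000 : ℝ) ^ n * σ n = σ 0 - ∑ j ∈ Finset.range n, zt σ j := by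
    intro n
    induction n with
    | zero => simp
    | succ n ih =>
      rw [Finset.sum_range_succ, ← sub_sub, ← ih, h n]
      unfold zt g
      ring
  have e2 := (zt_sum σ).sum_add_tsum_nat_add n
  have e3 : (1 / 3000) ^ n * σ n - zz σ = ∑' j, zt σ (j + n) := by
    rw [e1]; unfold zz; linarith
  rw [e3]
  refine ⟨tsum_nonneg fun j => zt_nonneg _ _, ?_⟩
  have hg : HasSum (fun m : ℕ => 9 * (1 / 1000 : ℝ) ^ n * (1 / 1000 : ℝ) ^ m)
      (9 * (1 / 1000 : ℝ) ^ n * (1 - 1 / 1000)⁻¹) :=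
    (hasSum_geometric_of_lt_one (by norm_num) (by norm_num)).mul_left _
  refine (Real.le_norm_self _).trans ((tsum_of_norm_bounded hg fun m => ?_).trans ?_)
  · refine (zt_le σ _).trans (le_of_eq ?_); ring
  · have : (0 : ℝ) < (1 / 1000 : ℝ) ^ n := by positivity
    rw [show ((1 : ℝ) - 1 / 1000)⁻¹ = 1000 / 999 by norm_num]
    linarith

lemma Rel.mono {σ τ : ℕ → ℝ} (h1 : Rel σ) (h2 : Rel τ) {m j : ℕ} (h : m ≤ j) :
    |σ m - τ m| ≤ |σ j - τ j| := by
  induction j, h using Nat.le_induction with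
  | base => exact le_rfl
  | succ j _ ih =>
    refine ih.trans ?_
    rw [h1 j, h2 j]; exact g_lip _ _ _

lemma Rel.G {σ : ℕ → ℝ} (h : Rel σ) (j : ℕ) : σ 0 = G j (σ j) := by
  induction j with
  | zero => rfl
  | succ j ih => rw [ih, h j]; rfl

lemma par_step (j : ℕ) (a b e : ℝ) (hab : a ≤ b) (h1 : b - a ≤ T j / 4)
    (h2 : |g j a - g j b| ≤ e) (h3 : ‖ph 2 j a - ph 2 j b‖ ≤ 1 / 2) :
    b - a ≤ 2 * e + 1 / 4000 ^ j := by
  have hT := T_pos j
  have he : 0 ≤ e := (abs_nonneg _).trans h2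
  have hq : (0 : ℝ) < 4000 ^ j := by positivity
  have hq' : (0 : ℝ) < 1 / 4000 ^ j := by positivity
  set m := ⌊a / T j⌋ with hm
  have m1 : (m : ℝ) ≤ a / T j := Int.floor_le _
  have m2 : a / T j < m + 1 := Int.lt_floor_add_one _
  have hd : b / T j - a / T j ≤ 1 / 4 := by
    rw [← sub_div, div_le_iff₀ hT]; linarith
  by_cases hb : b / T j ≤ m + 1
  · have := g_leg j m a b m1 hab hb
    linarith
  · push Not at hb
    obtain ⟨s, hs, h⟩ := Zleg (m + 1)
    push_cast at h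
    have e1 := h (a / T j + 1 / 2) (by linarith) (by linarith)
    have e2 := h (b / T j + 1 / 2) (by linarith) (by linarith)
    have f1 : T j * Z (a / T j + 1 / 2) - T j / 2 = s * (a - (m + 1) * T j) := by
      rw [e1]; field_simp; ring
    have f2 : T j * Z (b / T j + 1 / 2) - T j / 2 = s * (b - (m + 1) * T j) := by
      rw [e2]; field_simp; ring
    have a1 : a - (m + 1) * T j ≤ 0 := by rw [div_lt_iff₀ hT] at m2; linarith
    have b1 : 0 ≤ b - (m + 1) * T j := by rw [lt_div_iff₀ hT] at hb; linarith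
    simp only [ph, if_neg (by norm_num : (2 : ℕ) ≠ 0), if_neg (by norm_num : (2 : ℕ) ≠ 1)] at h3
    rw [← Complex.ofReal_sub, Complex.norm_real, Real.norm_eq_abs, f1, f2] at h3
    have key : 4000 ^ j * (b - a) ≤ 1 / 2 := by
      rcases hs with rfl | rfl
      · have := cl_sep (by nlinarith) (by nlinarith) h3
        linarith
      · rw [abs_sub_comm] at h3
        have := cl_sep (by nlinarith) (by nlinarith) h3
        linarith
    have : b - a ≤ 1 / 4000 ^ j := by
      rw [le_div_iff₀ hq]; linarith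
    linarith

lemma sep {σ τ : ℕ → ℝ} (h1 : Rel σ) (h2 : Rel τ) (n : ℕ)
    (hx : |σ 0 - τ 0| ≤ (1 / 1000) ^ (n + 2)) (hz : |zz σ - zz τ| ≤ (1 / 1000) ^ (n + 2))
    (hY : ∀ f < 3, ∀ c < 2, ‖Y (ph f) c σ - Y (ph f) c τ‖ ≤ 2 * (1 / 1000) ^ (n + 2)) :
    ∀ j ≤ n, |σ j - τ j| ≤ 1 / 100000 / 4000 ^ j := by
  have hδ : ∀ j ≤ n, (1 / 1000 : ℝ) ^ (n + 2) ≤ (1 / 1000) ^ (j + 2) := fun j hj =>
    pow_le_pow_of_le_one (by norm_num) (by norm_num) (by omega)
  intro j
  induction j with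
  | zero =>
    intro h
    refine hx.trans ((hδ 0 h).trans ?_)
    norm_num
  | succ k ih =>
    intro hk
    have ih := ih (by omega)
    set j := k + 1 with hj
    have hT := T_pos j
    have hq : (0 : ℝ) < 4000 ^ j := by positivity
    have hN : ∀ f < 3, ∀ D, 0 ≤ D → (∀ m < j, |σ m - τ m| ≤ D) →
        ‖ph f j (σ j) - ph f j (τ j)‖ ≤ 5 / 1000000 + D * 4000 ^ j / 12 := fun f hf D h0 hD =>
      noise (ph_good f) j σ τ D h0 hD
        ((hY f hf _ (Nat.mod_lt _ (by norm_num))).trans (by linarith [hδ j hk]))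
    have hN1 : ∀ f < 3, ‖ph f j (σ j) - ph f j (τ j)‖ ≤ 1 / 200 := by
      intro f hf
      refine (hN f hf (1 / 100000 / 4000 ^ k) (by positivity)
        fun m hm => (h1.mono h2 (by omega)).trans ih).trans ?_
      have : (1 : ℝ) / 100000 / 4000 ^ k * 4000 ^ j = 1 / 25 := by
        rw [hj, pow_succ]; field_simp; norm_num
      rw [this]; norm_num
    have w1 : |σ j - τ j| ≤ 12 * T j := by
      obtain ⟨a1, a2⟩ := zz_near h1 j
      obtain ⟨b1, b2⟩ := zz_near h2 j
      have c1 := hz.trans (hδ j hk)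
      have c2 : (1 / 1000 : ℝ) ^ (j + 2) ≤ (1 / 1000) ^ j :=
        pow_le_pow_of_le_one (by norm_num) (by norm_num) (by omega)
      have c3 : (0 : ℝ) < (1 / 3000) ^ j := by positivity
      have c4 : (1 / 3000 : ℝ) ^ j * |σ j - τ j| ≤ 11 * (1 / 1000) ^ j := by
        rw [← abs_of_pos c3, ← abs_mul, abs_le]
        rw [abs_le] at c1
        constructor <;> nlinarith [c1.1, c1.2]
      rw [← pw] at c4
      have c5 : |σ j - τ j| ≤ 11 * 3 ^ j := by
        refine le_of_mul_le_mul_left ?_ c3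
        linarith
      unfold T
      rw [pow_succ]
      have : (0 : ℝ) < 3 ^ j := by positivity
      linarith
    have w2 : |σ j - τ j| ≤ T j / 4 := by
      have a1 := hN1 1 (by norm_num)
      simp only [ph, if_neg (by norm_num : (1 : ℕ) ≠ 0), if_true] at a1
      have a2 : |σ j / (4 * T j) - τ j / (4 * T j)| = |σ j - τ j| / (4 * T j) := by
        rw [← sub_div, abs_div, abs_of_pos (by linarith : 0 < 4 * T j)]
      have a3 := E_low (σ j / (4 * T j)) (τ j / (4 * T j))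
        (by rw [a2, div_le_iff₀ (by linarith)]; linarith)
      rw [a2] at a3
      have a4 : |σ j - τ j| / (4 * T j) ≤ 1 / 16 := by linarith
      rw [div_le_iff₀ (by linarith)] at a4
      linarith
    have w3 : |σ j - τ j| ≤ 2 * (1 / 100000 / 4000 ^ k) + 1 / 4000 ^ j := by
      have a1 := (hN1 2 (by norm_num)).trans (by norm_num : (1 / 200 : ℝ) ≤ 1 / 2)
      have a2 : |g j (σ j) - g j (τ j)| ≤ 1 / 100000 / 4000 ^ k := by
        rw [← h1 k, ← h2 k]; exact ih
      rcases le_total (σ j) (τ j) with h | h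
      · rw [abs_sub_comm, abs_of_nonneg (by linarith)] at w2 ⊢
        exact par_step j _ _ _ h w2 a2 a1
      · rw [abs_of_nonneg (by linarith)] at w2 ⊢
        rw [abs_sub_comm] at a2
        rw [norm_sub_rev] at a1
        exact par_step j _ _ _ h w2 a2 a1
    have w4 : 4000 ^ j * |σ j - τ j| ≤ 3 := by
      have : (4000 : ℝ) ^ j * (2 * (1 / 100000 / 4000 ^ k) + 1 / 4000 ^ j) = 27 / 25 := by
        rw [hj, pow_succ]; field_simp; norm_num
      have := mul_le_mul_of_nonneg_left w3 hq.le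
      linarith
    have a1 := hN 0 (by norm_num) |σ j - τ j| (abs_nonneg _) fun m hm => h1.mono h2 hm.le
    simp only [ph, if_true] at a1
    have a2 : |4000 ^ j * σ j - 4000 ^ j * τ j| = 4000 ^ j * |σ j - τ j| := by
      rw [← mul_sub, abs_mul, abs_of_pos hq]
    have a3 := E_low (4000 ^ j * σ j) (4000 ^ j * τ j) (by rw [a2]; exact w4)
    rw [a2] at a3
    rw [le_div_iff₀ hq]
    nlinarith

end Pool.Agent.H.MP_5069ae_gt
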