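import Pool.Agent.H.MP_5069ae_gt.B

set_option linter.unusedSimpArgs false
set_option linter.unusedVariables false

namespace Pool.Agent.H.MP_5069ae_gt
open Set

lemma iInter_preconn {X : Type*} [TopologicalSpace X] [T2Space X] (s : ℕ → Set X)
    (hc : ∀ n, IsCompact (s n)) (hp : ∀ n, IsPreconnected (s n)) (hd : ∀ n, s (n + 1) ⊆ s n) :
    IsPreconnected (⋂ n, s n) := by
  have hcl : IsClosed (⋂ n, s n) := isClosed_iInter fun n => (hc n).isClosed
  have hK : IsCompact (⋂ n, s n) := (hc 0).of_isClosed_subset hcl (iInter_subset _ 0)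
  rw [isPreconnected_iff_subset_of_fully_disjoint_closed hcl]
  intro u v hu hv huv hdis
  obtain ⟨U, V, hU, hV, h1, h2, h3⟩ := SeparatedNhds.of_isCompact_isCompact
    (hK.inter_right hu) (hK.inter_right hv) (hdis.mono inter_subset_right inter_subset_right)
  have : ∃ n, s n ⊆ U ∪ V := by
    by_contra hn
    push Not at hn
    have hne := IsCompact.nonempty_iInter_of_sequence_nonempty_isCompact_isClosed
      (fun n => s n ∩ (U ∪ V)ᶜ) (fun n => inter_subset_inter_left _ (hd n))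
      (fun n => by
        obtain ⟨x, hx, hx'⟩ := not_subset.1 (hn n)
        exact ⟨x, hx, hx'⟩)
      ((hc 0).inter_right (hU.union hV).isClosed_compl)
      (fun n => (hc n).isClosed.inter (hU.union hV).isClosed_compl)
    obtain ⟨x, hx⟩ := hne
    rw [mem_iInter] at hx
    have hx1 : x ∈ ⋂ n, s n := mem_iInter.2 fun n => (hx n).1
    rcases huv hx1 with h | h
    · exact (hx 0).2 (Or.inl (h1 ⟨hx1, h⟩))
    · exact (hx 0).2 (Or.inr (h2 ⟨hx1, h⟩))
  obtain ⟨n, hn⟩ := this
  rcases (hp n).subset_or_subset hU hV h3 hn with h | h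
  · left
    intro x hx
    rcases huv hx with k | k
    · exact k
    · exact absurd (h2 ⟨hx, k⟩) (disjoint_left.1 h3 (h (mem_iInter.1 hx n)))
  · right
    intro x hx
    rcases huv hx with k | k
    · exact absurd (h (mem_iInter.1 hx n)) (disjoint_left.1 h3 (h1 ⟨hx, k⟩))
    · exact k

noncomputable def be (j : ℕ) : ℝ := 3000 ^ j + 10 * 3 ^ j

def Box : Set (ℕ → ℝ) := Set.pi univ fun j => Icc 0 (be j)

lemma g_box {j : ℕ} {l : ℝ} (h : l ∈ Icc 0 (be (j + 1))) : g (j + 1) l ∈ Icc 0 (be j) := by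
  have h1 := Z_nonneg (l / T (j + 1))
  have h2 := Z_le_one (l / T (j + 1))
  have h3 := T_pos (j + 1)
  have h4 : T (j + 1) = 9 * 3 ^ j := by unfold T; ring
  obtain ⟨h5, h6⟩ := h
  unfold be at h6 ⊢
  unfold g
  rw [pow_succ, pow_succ] at h6
  constructor
  · positivity
  · nlinarith

lemma g_ge (j : ℕ) (l : ℝ) : l / 3000 ≤ g j l := by
  have h1 := Z_nonneg (l / T j)
  have h3 := T_pos j
  unfold g
  have : 0 ≤ 2999 / 3000 * T j * Z (l / T j) := by positivity
  linarith

noncomputable def pull : ℕ → (ℕ → ℝ) → (ℕ → ℝ)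
  | 0 => id
  | n + 1 => fun σ => pull n (Function.update σ n (g (n + 1) (σ (n + 1))))

lemma pull_cont (n : ℕ) : Continuous (pull n) := by
  induction n with
  | zero => exact continuous_id
  | succ n ih =>
    exact ih.comp (continuous_id.update n ((g_cont _).comp (continuous_apply (n + 1))))

lemma pull_ge (n : ℕ) : ∀ σ j, n ≤ j → pull n σ j = σ j := by
  induction n with
  | zero => intro σ j _; rfl
  | succ n ih =>
    intro σ j hj
    show pull n _ j = _
    rw [ih _ j (by omega), Function.update_of_ne (by omega)]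

lemma pull_rel (n : ℕ) : ∀ σ, ∀ j < n, pull n σ j = g (j + 1) (pull n σ (j + 1)) := by
  induction n with
  | zero => intro σ j hj; omega
  | succ n ih =>
    intro σ j hj
    show pull n _ j = g (j + 1) (pull n _ (j + 1))
    rcases Nat.lt_succ_iff_lt_or_eq.1 hj with h | rfl
    · exact ih _ j h
    · rw [pull_ge _ _ _ le_rfl, pull_ge _ _ _ (Nat.le_succ _), Function.update_self,
        Function.update_of_ne (by omega)]

lemma pull_box (n : ℕ) : ∀ σ ∈ Box, pull n σ ∈ Box := by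
  induction n with
  | zero => intro σ h; exact h
  | succ n ih =>
    intro σ h
    refine ih _ fun j _ => ?_
    by_cases hj : j = n
    · subst hj; rw [Function.update_self]; exact g_box (h _ trivial)
    · rw [Function.update_of_ne hj]; exact h j trivial

lemma pull_id (n : ℕ) : ∀ σ : ℕ → ℝ, (∀ j < n, σ j = g (j + 1) (σ (j + 1))) → pull n σ = σ := by
  induction n with
  | zero => intro σ _; rfl
  | succ n ih =>
    intro σ h
    show pull n _ = _
    rw [← h n (Nat.lt_succ_self n), Function.update_eq_self]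
    exact ih σ fun j hj => h j (by omega)

def La (n : ℕ) : Set (ℕ → ℝ) := {σ | σ ∈ Box ∧ ∀ j < n, σ j = g (j + 1) (σ (j + 1))}

lemma La_eq (n : ℕ) : La n = pull n '' Box := by
  ext σ
  constructor
  · rintro ⟨h1, h2⟩; exact ⟨σ, h1, pull_id n σ h2⟩
  · rintro ⟨τ, h, rfl⟩; exact ⟨pull_box n τ h, pull_rel n τ⟩

lemma Box_cpt : IsCompact Box := isCompact_univ_pi fun _ => isCompact_Icc
lemma Box_conn : IsPreconnected Box := isPreconnected_univ_pi fun _ => isPreconnected_Icc
lemma La_cpt (n : ℕ) : IsCompact (La n) := by rw [La_eq]; exact Box_cpt.image (pull_cont n)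
lemma La_conn (n : ℕ) : IsPreconnected (La n) := by
  rw [La_eq]; exact Box_conn.image _ (pull_cont n).continuousOn
lemma La_dec (n : ℕ) : La (n + 1) ⊆ La n := fun σ h => ⟨h.1, fun j hj => h.2 j (by omega)⟩

def Lam : Set (ℕ → ℝ) := ⋂ n, La n

lemma Lam_cpt : IsCompact Lam :=
  (La_cpt 0).of_isClosed_subset (isClosed_iInter fun n => (La_cpt n).isClosed) (iInter_subset _ 0)
lemma Lam_conn : IsPreconnected Lam := iInter_preconn La La_cpt La_conn La_dec
lemma Lam_rel {σ : ℕ → ℝ} (h : σ ∈ Lam) : Rel σ :=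
  fun j => (mem_iInter.1 h (j + 1)).2 j (Nat.lt_succ_self j)

lemma zero_mem : (fun _ => 0 : ℕ → ℝ) ∈ Lam := by
  refine mem_iInter.2 fun n => ⟨fun j _ => ⟨le_rfl, by unfold be; positivity⟩, fun j _ => ?_⟩
  simp [g, Z_zero]

lemma zz_zero : zz (fun _ => 0) = 0 := by simp [zz, zt, Z_zero]

lemma top_mem : ∃ σ ∈ Lam, 1 ≤ zz σ := by
  have hcl : IsClosed {σ : ℕ → ℝ | ∀ j, 3000 ^ j ≤ σ j} := by
    rw [Set.ofPred_forall]
    exact isClosed_iInter fun j => isClosed_le continuous_const (continuous_apply j)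
  have hne := IsCompact.nonempty_iInter_of_sequence_nonempty_isCompact_isClosed
    (fun n => La n ∩ {σ : ℕ → ℝ | ∀ j, 3000 ^ j ≤ σ j})
    (fun n => inter_subset_inter_left _ (La_dec n)) (fun n => ?_)
    ((La_cpt 0).inter_right hcl) (fun n => (La_cpt n).isClosed.inter hcl)
  · obtain ⟨σ, h⟩ := hne
    rw [mem_iInter] at h
    have h1 : σ ∈ Lam := mem_iInter.2 fun n => (h n).1
    refine ⟨σ, h1, ?_⟩
    have h2 : ∀ n : ℕ, 1 - zz σ ≤ 10 * (1 / 1000) ^ n := by
      intro n
      have a1 := (zz_near (Lam_rel h1) n).2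
      have a2 := (h 0).2 n
      have a3 : (1 / 3000 : ℝ) ^ n * 3000 ^ n = 1 := by rw [← mul_pow]; norm_num
      have a4 := mul_le_mul_of_nonneg_left a2 (by positivity : (0 : ℝ) ≤ (1 / 3000) ^ n)
      linarith
    have h3 : Filter.Tendsto (fun n : ℕ => 10 * (1 / 1000 : ℝ) ^ n) Filter.atTop (nhds (10 * 0)) :=
      (tendsto_pow_atTop_nhds_zero_of_lt_one (by norm_num) (by norm_num)).const_mul 10
    have := ge_of_tendsto' h3 h2
    linarith
  · have hb : (fun j => 3000 ^ j : ℕ → ℝ) ∈ Box := fun j _ =>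
      ⟨by positivity, by unfold be; have : (0 : ℝ) < 3 ^ j := by positivity
                         linarith⟩
    refine ⟨pull n fun j => 3000 ^ j, by rw [La_eq]; exact ⟨_, hb, rfl⟩, ?_⟩
    have : ∀ k j, n ≤ j + k → (3000 : ℝ) ^ j ≤ pull n (fun j => 3000 ^ j) j := by
      intro k
      induction k with
      | zero => intro j hj; rw [pull_ge n _ j hj]
      | succ k ih =>
        intro j hj
        by_cases h : n ≤ j
        · rw [pull_ge n _ j h]
        · rw [pull_rel n _ j (by omega)]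
          refine le_trans ?_ (g_ge _ _)
          have := ih (j + 1) (by omega)
          rw [pow_succ] at this
          linarith
    exact fun j => this n j (by omega)

noncomputable def co : ℕ → (ℕ → ℝ) → ℝ
  | 0 => fun σ => σ 0
  | 1 => zz
  | i + 2 => fun σ => if i % 2 = 0 then (Y (ph (i / 4)) (i / 2 % 2) σ).re
      else (Y (ph (i / 4)) (i / 2 % 2) σ).im

lemma co_cont : ∀ i, Continuous (co i)
  | 0 => continuous_apply 0
  | 1 => zz_cont
  | i + 2 => by
    simp only [co]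
    split_ifs
    · exact Complex.continuous_re.comp (Y_cont (ph_good _) _)
    · exact Complex.continuous_im.comp (Y_cont (ph_good _) _)

noncomputable def Ph (N : ℕ) (σ : ℕ → ℝ) : EuclideanSpace ℝ (Fin N) :=
  WithLp.toLp 2 fun i => co i σ

lemma Ph_cont (N : ℕ) : Continuous (Ph N) :=
  (PiLp.continuous_toLp 2 _).comp (continuous_pi fun i => co_cont i)

lemma co_le {N : ℕ} (σ τ : ℕ → ℝ) (i : ℕ) (hi : i < N) :
    |co i σ - co i τ| ≤ dist (Ph N σ) (Ph N τ) := by
  have := PiLp.dist_apply_le (Ph N σ) (Ph N τ) ⟨i, hi⟩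
  exact this

lemma Ph_sep {N : ℕ} (hN : 14 ≤ N) {σ τ : ℕ → ℝ} (h1 : Rel σ) (h2 : Rel τ) (n : ℕ)
    (h : dist (Ph N σ) (Ph N τ) ≤ (1 / 1000) ^ (n + 2)) : |σ n - τ n| ≤ 1 := by
  have := sep h1 h2 n ((co_le σ τ 0 (by omega)).trans h) ((co_le σ τ 1 (by omega)).trans h)
    (fun f hf c hc => ?_) n le_rfl
  · refine this.trans ?_
    have : (1 : ℝ) ≤ 4000 ^ n := one_le_pow₀ (by norm_num)
    rw [div_le_iff₀ (by positivity)]; linarith
  · have a1 := (co_le σ τ (4 * f + 2 * c + 2) (by omega)).trans h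
    have a2 := (co_le σ τ (4 * f + 2 * c + 1 + 2) (by omega)).trans h
    simp only [co] at a1 a2
    rw [if_pos (by omega), if_pos (by omega), show (4 * f + 2 * c) / 4 = f by omega,
      show (4 * f + 2 * c) / 2 % 2 = c by omega] at a1
    rw [if_neg (by omega), if_neg (by omega), show (4 * f + 2 * c + 1) / 4 = f by omega,
      show (4 * f + 2 * c + 1) / 2 % 2 = c by omega] at a2
    refine (Complex.norm_le_abs_re_add_abs_im _).trans ?_
    rw [Complex.sub_re, Complex.sub_im]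
    linarith

theorem exK (N : ℕ) (hN : 14 ≤ N) : ∃ (K : Set (EuclideanSpace ℝ (Fin N)))
    (p q : EuclideanSpace ℝ (Fin N)) (u : EuclideanSpace ℝ (Fin N) → ℝ),
    IsCompact K ∧ IsConnected K ∧ p ∈ K ∧ q ∈ K ∧ 1 ≤ |u p - u q| ∧
    (∀ a b, |u a - u b| ≤ dist a b) ∧
    ∀ n : ℕ, ∃ l : EuclideanSpace ℝ (Fin N) → ℝ,
      (∀ a ∈ K, ∀ b ∈ K, dist a b ≤ (1 / 1000) ^ (n + 2) → |l a - l b| ≤ 1) ∧
      (∀ a ∈ K, ∀ b ∈ K, |l a - l b| ≤ 2 * T n → |u a - u b| ≤ 16 * (1 / 1000) ^ n) ∧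
      (∀ a ∈ K, ∀ b ∈ K, |G n (l a) - G n (l b)| ≤ dist a b) := by
  obtain ⟨q, hq, hq1⟩ := top_mem
  refine ⟨Ph N '' Lam, Ph N fun _ => 0, Ph N q, fun a => a ⟨1, by omega⟩,
    Lam_cpt.image (Ph_cont N), ⟨⟨_, mem_image_of_mem _ zero_mem⟩,
      Lam_conn.image _ (Ph_cont N).continuousOn⟩, mem_image_of_mem _ zero_mem,
      mem_image_of_mem _ hq, ?_, fun a b => PiLp.dist_apply_le a b _, fun n => ?_⟩
  · show 1 ≤ |zz (fun _ => 0) - zz q|
    rw [zz_zero, zero_sub, abs_neg]
    exact hq1.trans (le_abs_self _)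
  · have : ∀ a : EuclideanSpace ℝ (Fin N), ∃ σ, a ∈ Ph N '' Lam → σ ∈ Lam ∧ Ph N σ = a := by
      intro a
      by_cases h : a ∈ Ph N '' Lam
      · obtain ⟨σ, h⟩ := h; exact ⟨σ, fun _ => h⟩
      · exact ⟨fun _ => 0, fun k => absurd k h⟩
    choose s hs using this
    refine ⟨fun a => s a n, fun a ha b hb h => ?_, fun a ha b hb h => ?_, fun a ha b hb => ?_⟩
    · refine Ph_sep hN (Lam_rel (hs a ha).1) (Lam_rel (hs b hb).1) n ?_
      rwa [(hs a ha).2, (hs b hb).2]
    · have e1 : a ⟨1, by omega⟩ = zz (s a) := by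
        conv_lhs => rw [← (hs a ha).2]
        rfl
      have e2 : b ⟨1, by omega⟩ = zz (s b) := by
        conv_lhs => rw [← (hs b hb).2]
        rfl
      show |a ⟨1, _⟩ - b ⟨1, _⟩| ≤ _
      rw [e1, e2]
      obtain ⟨a1, a2⟩ := zz_near (Lam_rel (hs a ha).1) n
      obtain ⟨b1, b2⟩ := zz_near (Lam_rel (hs b hb).1) n
      have c3 : (0 : ℝ) < (1 / 3000) ^ n := by positivity
      have c4 : (1 / 3000 : ℝ) ^ n * (2 * T n) = 6 * (1 / 1000) ^ n := by
        rw [← pw]; unfold T; ring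
      rw [abs_le] at h ⊢
      have d1 := mul_le_mul_of_nonneg_left h.1 c3.le
      have d2 := mul_le_mul_of_nonneg_left h.2 c3.le
      constructor <;> nlinarith
    · rw [← (Lam_rel (hs a ha).1).G, ← (Lam_rel (hs b hb).1).G]
      have := co_le (N := N) (s a) (s b) 0 (by omega)
      rwa [(hs a ha).2, (hs b hb).2] at this

end Pool.Agent.H.MP_5069ae_gt
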