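import Mathlib

namespace Pool.Agent.H.MP_5069ae_gt

/-- the parameters in `[0,1]` at which the curve is outside `K` -/
def outSet {E : Type*} (γ : ℝ → E) (K : Set E) : Set ℝ := {t | t ∈ Set.Icc (0 : ℝ) 1 ∧ γ t ∉ K}

/-- the length of the curve outside `K`: the sum, over the connected components `J` of the
set of parameters outside `K`, of the length (total variation) of the curve on `J` -/
noncomputable def outLen {E : Type*} [PseudoEMetricSpace E] (γ : ℝ → E) (K : Set E) : ENNReal :=
  ∑' J : {J : Set ℝ // ∃ t ∈ outSet γ K, J = connectedComponentIn (outSet γ K) t},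
    eVariationOn γ J.1

end Pool.Agent.H.MP_5069ae_gt
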