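import Pool.Agent.H.MP_5069ae_gt.C
import Pool.Agent.H.MP_5069ae_gt.Defs

set_option linter.unusedSimpArgs false
set_option linter.unusedVariables false

namespace Pool.Agent.H.MP_5069ae_gt
open Set

/-- a gap of `A` -/
def Gap (A : Set ℝ) (a b : ℝ) : Prop := a ∈ A ∧ b ∈ A ∧ a < b ∧ ∀ x ∈ A, x ≤ a ∨ b ≤ x

lemma dense_vals {A : Set ℝ} (hA : IsClosed A) (l : ℝ → ℝ) {s t h : ℝ} (hh : 0 < h)
    (hs : s ∈ A) (ht : t ∈ A) (hst : s ≤ t)
    (h1 : ∀ a ∈ A, ∀ b ∈ A, |a - b| ≤ h → |l a - l b| ≤ 1)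
    (h2 : ∀ a b, Gap A a b → s ≤ a → b ≤ t → |l a - l b| ≤ 1) (v : ℝ)
    (hv1 : l s ≤ v) (hv2 : v ≤ l t) : ∃ a ∈ A, s ≤ a ∧ a ≤ t ∧ |l a - v| ≤ 1 := by
  by_contra hc
  push Not at hc
  have hc' : ∀ a ∈ A, s ≤ a → a ≤ t → l a < v - 1 ∨ v + 1 < l a := by
    intro a ha k1 k2
    rcases lt_abs.1 (hc a ha k1 k2) with k | k
    · right; linarith
    · left; linarith
  let P : Set ℝ := {a | a ∈ A ∧ s ≤ a ∧ a ≤ t ∧ l a < v}
  have hsP : s ∈ P := ⟨hs, le_rfl, hst, by rcases hc' s hs le_rfl hst with k | k <;> linarith⟩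
  have hPb : BddAbove P := ⟨t, fun a ha => ha.2.2.1⟩
  have a1 : sSup P ∈ A := hA.closure_subset
    (closure_mono (fun a ha => ha.1) (csSup_mem_closure ⟨s, hsP⟩ hPb))
  have a2 : s ≤ sSup P := le_csSup hPb hsP
  have a3 : sSup P ≤ t := csSup_le ⟨s, hsP⟩ fun a ha => ha.2.2.1
  have a4 : l (sSup P) < v - 1 := by
    obtain ⟨a, ha, k⟩ := exists_lt_of_lt_csSup ⟨s, hsP⟩ (show sSup P - h < sSup P by linarith)
    have k1 := le_csSup hPb ha
    have k2 := h1 a ha.1 _ a1 (abs_le.2 ⟨by linarith, by linarith⟩)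
    rw [abs_le] at k2
    rcases hc' a ha.1 ha.2.1 ha.2.2.1 with k3 | k3
    · rcases hc' _ a1 a2 a3 with k4 | k4
      · exact k4
      · linarith [k2.1]
    · linarith [ha.2.2.2]
  have a5 : sSup P < t := lt_of_le_of_ne a3 fun k => by rw [k] at a4; linarith
  let Q : Set ℝ := {b | b ∈ A ∧ sSup P < b ∧ b ≤ t}
  have htQ : t ∈ Q := ⟨ht, a5, le_rfl⟩
  have hQb : BddBelow Q := ⟨sSup P, fun a ha => ha.2.1.le⟩
  have b1 : sInf Q ∈ A := hA.closure_subset
    (closure_mono (fun a ha => ha.1) (csInf_mem_closure ⟨t, htQ⟩ hQb))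
  have b2 : sSup P ≤ sInf Q := le_csInf ⟨t, htQ⟩ fun a ha => ha.2.1.le
  have b3 : sInf Q ≤ t := csInf_le hQb htQ
  have b4 : v + 1 < l (sInf Q) := by
    obtain ⟨b, hb, k⟩ := exists_lt_of_csInf_lt ⟨t, htQ⟩ (show sInf Q < sInf Q + h by linarith)
    have k1 := csInf_le hQb hb
    have k2 := h1 b hb.1 _ b1 (abs_le.2 ⟨by linarith, by linarith⟩)
    rw [abs_le] at k2
    rcases hc' b hb.1 (a2.trans hb.2.1.le) hb.2.2 with k3 | k3
    · have : b ≤ sSup P := le_csSup hPb ⟨hb.1, a2.trans hb.2.1.le, hb.2.2, by linarith⟩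
      linarith [hb.2.1]
    · rcases hc' _ b1 (a2.trans b2) b3 with k4 | k4
      · linarith [k2.2]
      · exact k4
  have b5 : sSup P < sInf Q := lt_of_le_of_ne b2 fun k => by rw [k] at a4; linarith
  have := h2 _ _ ⟨a1, b1, b5, fun x hx => ?_⟩ a2 b3
  · rw [abs_le] at this; linarith [this.1]
  · by_cases k : x ≤ sSup P
    · exact Or.inl k
    · right
      by_cases k' : x ≤ t
      · exact csInf_le hQb ⟨hx, not_le.1 k, k'⟩
      · linarith [not_le.1 k']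

lemma dense_vals' {A : Set ℝ} (hA : IsClosed A) (l : ℝ → ℝ) {s t h : ℝ} (hh : 0 < h)
    (hs : s ∈ A) (ht : t ∈ A) (hst : s ≤ t)
    (h1 : ∀ a ∈ A, ∀ b ∈ A, |a - b| ≤ h → |l a - l b| ≤ 1)
    (h2 : ∀ a b, Gap A a b → s ≤ a → b ≤ t → |l a - l b| ≤ 1) (v : ℝ)
    (hv1 : min (l s) (l t) ≤ v) (hv2 : v ≤ max (l s) (l t)) :
    ∃ a ∈ A, s ≤ a ∧ a ≤ t ∧ |l a - v| ≤ 1 := by
  rcases le_total (l s) (l t) with k | k
  · rw [min_eq_left k] at hv1; rw [max_eq_right k] at hv2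
    exact dense_vals hA l hh hs ht hst h1 h2 v hv1 hv2
  · rw [min_eq_right k] at hv1; rw [max_eq_left k] at hv2
    obtain ⟨a, ha, k1, k2, k3⟩ := dense_vals hA (fun x => - l x) hh hs ht hst
      (fun a ha b hb k => by rw [neg_sub_neg, abs_sub_comm]; exact h1 a ha b hb k)
      (fun a b k k1 k2 => by rw [neg_sub_neg, abs_sub_comm]; exact h2 a b k k1 k2) (-v)
      (by linarith) (by linarith)
    exact ⟨a, ha, k1, k2, by rwa [neg_sub_neg, abs_sub_comm] at k3⟩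

section
variable {X : Type*} [MetricSpace X] {K : Set X} {u : X → ℝ} {γ : ℝ → X} {A : Set ℝ}
  {L : ℝ → ℝ → ℝ}

lemma local_bd (hA : IsClosed A) (hAK : ∀ a ∈ A, γ a ∈ K)
    (hu : ∀ a b, |u a - u b| ≤ dist a b)
    (hγ : ∀ ε > 0, ∃ h > 0, ∀ a ∈ A, ∀ b ∈ A, |a - b| ≤ h → dist (γ a) (γ b) ≤ ε)
    (hK : ∀ n : ℕ, ∃ l : X → ℝ,
      (∀ a ∈ K, ∀ b ∈ K, dist a b ≤ (1 / 1000) ^ (n + 2) → |l a - l b| ≤ 1) ∧
      (∀ a ∈ K, ∀ b ∈ K, |l a - l b| ≤ 2 * T n → |u a - u b| ≤ 16 * (1 / 1000) ^ n) ∧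
      (∀ a ∈ K, ∀ b ∈ K, |G n (l a) - G n (l b)| ≤ dist a b))
    (L0 : ∀ s t, 0 ≤ L s t)
    (L1 : ∀ s a t, a ∈ A → s ≤ a → a ≤ t → L s a + L a t ≤ L s t)
    (L2 : ∀ a b, Gap A a b → dist (γ a) (γ b) ≤ L a b)
    {h0 : ℝ} (hh0 : ∀ a ∈ A, ∀ b ∈ A, |a - b| ≤ h0 → dist (γ a) (γ b) ≤ 1)
    {s t : ℝ} (hs : s ∈ A) (ht : t ∈ A) (hst : s ≤ t) (hd : t - s ≤ h0) :
    |u (γ s) - u (γ t)| ≤ 16000001 * L s t := by
  have main : ∀ n : ℕ, |u (γ s) - u (γ t)| - 16000001 * L s t ≤ 16 * (1 / 1000) ^ n := by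
    intro n
    obtain ⟨l, l1, l2, l3⟩ := hK n
    obtain ⟨h, hh, hγ'⟩ := hγ ((1 / 1000) ^ (n + 2)) (by positivity)
    have hM : ∀ s ∈ A, ∀ t ∈ A, s ≤ t → t - s ≤ h0 →
        (∀ a b, Gap A a b → s ≤ a → b ≤ t → dist (γ a) (γ b) ≤ (1 / 1000) ^ (n + 2)) →
        |u (γ s) - u (γ t)| ≤ 16 * (1 / 1000) ^ n := by
      intro s hs t ht hst hd hg
      refine l2 _ (hAK s hs) _ (hAK t ht) ?_
      by_contra hc
      push Not at hc
      obtain ⟨v, hv, w, hw, hvw⟩ := G_big n (min (l (γ s)) (l (γ t)))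
      have hmm := max_sub_min_eq_abs' (l (γ s)) (l (γ t))
      have hD := dense_vals' hA (fun x => l (γ x)) hh hs ht hst
        (fun a ha b hb k => l1 _ (hAK a ha) _ (hAK b hb) (hγ' a ha b hb k))
        (fun a b k k1 k2 => l1 _ (hAK a k.1) _ (hAK b k.2.1) (hg a b k k1 k2))
      obtain ⟨a, ha, a1, a2, a3⟩ := hD v hv.1 (by linarith [hv.2])
      obtain ⟨b, hb, b1, b2, b3⟩ := hD w hw.1 (by linarith [hw.2])
      have c1 := (l3 _ (hAK a ha) _ (hAK b hb)).trans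
        (hh0 a ha b hb (abs_le.2 ⟨by linarith, by linarith⟩))
      have c2 := (G_lip n _ _).trans a3
      have c3 := (G_lip n _ _).trans b3
      rw [abs_le] at c1 c2 c3
      rcases le_abs.1 hvw with k | k <;> linarith [c1.1, c1.2, c2.1, c2.2, c3.1, c3.2]
    have hI : ∀ k : ℕ, ∀ s ∈ A, ∀ t ∈ A, s ≤ t → t - s ≤ h0 → t - s ≤ k * h →
        |u (γ s) - u (γ t)| - 16000001 * L s t ≤ 16 * (1 / 1000) ^ n := by
      intro k
      induction k with
      | zero =>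
        intro s hs t ht hst _ hk
        obtain rfl : s = t := by simp at hk; linarith
        have := L0 s s
        have : (0 : ℝ) < (1 / 1000) ^ n := by positivity
        simp only [sub_self, abs_zero]; linarith
      | succ k ih =>
        intro s hs t ht hst hd hk
        by_cases hg : ∀ a b, Gap A a b → s ≤ a → b ≤ t → dist (γ a) (γ b) ≤ (1 / 1000) ^ (n + 2)
        · have := hM s hs t ht hst hd hg
          have := L0 s t
          linarith
        · push Not at hg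
          obtain ⟨a, b, hab, k1, k2, k3⟩ := hg
          have k4 : h < b - a := by
            by_contra hc
            push Not at hc
            have := hγ' a hab.1 b hab.2.1 (abs_le.2 ⟨by linarith, by linarith [hab.2.2.1]⟩)
            linarith
          push_cast at hk
          have i1 := ih s hs a hab.1 k1 (by linarith) (by linarith)
          have i2 := ih b hab.2.1 t ht k2 (by linarith) (by linarith)
          have i3 := hu (γ a) (γ b)
          have i4 := L2 a b hab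
          have i5 := L1 s a t hab.1 k1 (by linarith)
          have i6 := L1 a b t hab.2.1 hab.2.2.1.le k2
          have i7 := abs_sub_le (u (γ s)) (u (γ a)) (u (γ t))
          have i8 := abs_sub_le (u (γ a)) (u (γ b)) (u (γ t))
          have i9 : (1 / 1000 : ℝ) ^ (n + 2) = (1 / 1000) ^ n / 1000000 := by ring
          linarith
    obtain ⟨k, hk⟩ := exists_nat_ge ((t - s) / h)
    exact hI k s hs t ht hst hd (by rwa [div_le_iff₀ hh] at hk)
  have h3 : Filter.Tendsto (fun n : ℕ => 16 * (1 / 1000 : ℝ) ^ n) Filter.atTop (nhds (16 * 0)) :=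
    (tendsto_pow_atTop_nhds_zero_of_lt_one (by norm_num) (by norm_num)).const_mul 16
  have := ge_of_tendsto' h3 main
  linarith

lemma global_bd (hA : IsClosed A)
    (hu : ∀ a b, |u a - u b| ≤ dist a b)
    (L0 : ∀ s t, 0 ≤ L s t)
    (L1 : ∀ s a t, a ∈ A → s ≤ a → a ≤ t → L s a + L a t ≤ L s t)
    (L2 : ∀ a b, Gap A a b → dist (γ a) (γ b) ≤ L a b)
    {h0 : ℝ} (hp : 0 < h0)
    (hl : ∀ s ∈ A, ∀ t ∈ A, s ≤ t → t - s ≤ h0 → |u (γ s) - u (γ t)| ≤ 16000001 * L s t)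
    {s t : ℝ} (hs : s ∈ A) (ht : t ∈ A) (hst : s ≤ t) :
    |u (γ s) - u (γ t)| ≤ 16000001 * L s t := by
  have hI : ∀ k : ℕ, ∀ s ∈ A, s ≤ t → t - s ≤ k * (h0 / 2) →
      |u (γ s) - u (γ t)| ≤ 16000001 * L s t := by
    intro k
    induction k with
    | zero => intro s hs hst hk; exact hl s hs t ht hst (by simp at hk; linarith)
    | succ k ih =>
      intro s hs hst hk
      push_cast at hk
      by_cases hd : t - s ≤ h0
      · exact hl s hs t ht hst hd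
      push Not at hd
      by_cases hm : ∃ a ∈ A, s + h0 / 2 ≤ a ∧ a ≤ s + h0
      · obtain ⟨a, ha, a1, a2⟩ := hm
        have i1 := hl s hs a ha (by linarith) (by linarith)
        have i2 := ih a ha (by linarith) (by linarith)
        have i5 := L1 s a t ha (by linarith) (by linarith)
        have i7 := abs_sub_le (u (γ s)) (u (γ a)) (u (γ t))
        linarith
      · push Not at hm
        have hP : IsCompact (A ∩ Icc s (s + h0 / 2)) := isCompact_Icc.inter_left hA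
        have hQ : IsCompact (A ∩ Icc (s + h0) t) := isCompact_Icc.inter_left hA
        obtain ⟨a, ha, a1⟩ := hP.exists_isGreatest ⟨s, hs, le_rfl, by linarith⟩
        obtain ⟨b, hb, b1⟩ := hQ.exists_isLeast ⟨t, ht, by linarith, le_rfl⟩
        have hab : Gap A a b := by
          refine ⟨ha.1, hb.1, by linarith [ha.2.2, hb.2.1], fun x hx => ?_⟩
          by_cases k1 : x ≤ s + h0 / 2
          · left
            by_cases k2 : s ≤ x
            · exact a1 ⟨hx, k2, k1⟩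
            · linarith [ha.2.1, not_le.1 k2]
          · right
            have k3 := hm x hx (not_le.1 k1).le
            by_cases k2 : x ≤ t
            · exact b1 ⟨hx, k3.le, k2⟩
            · linarith [hb.2.2, not_le.1 k2]
        have i1 := hl s hs a ha.1 ha.2.1 (by linarith [ha.2.2])
        have i2 := ih b hb.1 hb.2.2 (by linarith [hb.2.1])
        have i3 := hu (γ a) (γ b)
        have i4 := L2 a b hab
        have i5 := L1 s a t ha.1 ha.2.1 (by linarith [ha.2.2])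
        have i6 := L1 a b t hb.1 hab.2.2.1.le hb.2.2
        have i7 := abs_sub_le (u (γ s)) (u (γ a)) (u (γ t))
        have i8 := abs_sub_le (u (γ a)) (u (γ b)) (u (γ t))
        have i9 := L0 a b
        linarith
  obtain ⟨k, hk⟩ := exists_nat_ge ((t - s) / (h0 / 2))
  exact hI k s hs hst (by rwa [div_le_iff₀ (by linarith)] at hk)

lemma exL (hK : IsClosed K) (hγ : ContinuousOn γ (Icc 0 1)) (hfin : outLen γ K ≠ ⊤) :
    ∃ L : ℝ → ℝ → ℝ, (∀ s t, 0 ≤ L s t) ∧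
      (∀ s a t, a ∈ {t | t ∈ Icc (0 : ℝ) 1 ∧ γ t ∈ K} → s ≤ a → a ≤ t → L s a + L a t ≤ L s t) ∧
      (∀ a b, Gap {t | t ∈ Icc (0 : ℝ) 1 ∧ γ t ∈ K} a b → dist (γ a) (γ b) ≤ L a b) ∧
      L 0 1 ≤ (outLen γ K).toReal := by
  classical
  let M : ℝ → ℝ → ENNReal := fun s t =>
    ∑' J : {J : Set ℝ // ∃ t ∈ outSet γ K, J = connectedComponentIn (outSet γ K) t},
      if J.1 ⊆ Icc s t then eVariationOn γ J.1 else 0
  have hM : ∀ s t, M s t ≤ outLen γ K := fun s t =>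
    ENNReal.tsum_le_tsum fun J => by split_ifs <;> simp
  have hM' : ∀ s t, M s t ≠ ⊤ := fun s t => ne_top_of_le_ne_top hfin (hM s t)
  refine ⟨fun s t => (M s t).toReal, fun s t => ENNReal.toReal_nonneg, ?_, ?_,
    ENNReal.toReal_mono hfin (hM 0 1)⟩
  · intro s a t ha h1 h2
    rw [← ENNReal.toReal_add (hM' _ _) (hM' _ _)]
    refine ENNReal.toReal_mono (hM' _ _) ?_
    simp only [M]
    rw [← ENNReal.tsum_add]
    refine ENNReal.tsum_le_tsum ?_
    rintro ⟨J, x, hx, rfl⟩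
    have hx' := mem_connectedComponentIn hx
    by_cases k1 : connectedComponentIn (outSet γ K) x ⊆ Icc s a
    · have k2 : ¬ connectedComponentIn (outSet γ K) x ⊆ Icc a t := by
        intro k2
        have : x = a := le_antisymm (k1 hx').2 (k2 hx').1
        exact hx.2 (this ▸ ha.2)
      rw [if_pos k1, if_neg k2, if_pos (k1.trans (Icc_subset_Icc le_rfl h2)), add_zero]
    · rw [if_neg k1, zero_add]
      by_cases k2 : connectedComponentIn (outSet γ K) x ⊆ Icc a t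
      · rw [if_pos k2, if_pos (k2.trans (Icc_subset_Icc h1 le_rfl))]
      · rw [if_neg k2]; exact zero_le
  · rintro a b ⟨ha, hb, hab, hg⟩
    have hsub : Ioo a b ⊆ outSet γ K := by
      intro x hx
      have hx1 : x ∈ Icc (0 : ℝ) 1 := ⟨ha.1.1.trans hx.1.le, hx.2.le.trans hb.1.2⟩
      refine ⟨hx1, fun k => ?_⟩
      rcases hg x ⟨hx1, k⟩ with k | k <;> linarith [hx.1, hx.2]
    have hm : (a + b) / 2 ∈ Ioo a b := ⟨by linarith, by linarith⟩
    have h1 : Ioo a b ⊆ connectedComponentIn (outSet γ K) ((a + b) / 2) :=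
      isPreconnected_Ioo.subset_connectedComponentIn hm hsub
    have h2 : connectedComponentIn (outSet γ K) ((a + b) / 2) ⊆ Icc a b := by
      have hoc := (isPreconnected_connectedComponentIn (F := outSet γ K)
        (x := (a + b) / 2)).ordConnected
      have hs := connectedComponentIn_subset (outSet γ K) ((a + b) / 2)
      intro x hx
      constructor
      · by_contra k
        exact (hs (hoc.out hx (h1 hm) ⟨(not_le.1 k).le, hm.1.le⟩)).2 ha.2
      · by_contra k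
        exact (hs (hoc.out (h1 hm) hx ⟨hm.2.le, (not_le.1 k).le⟩)).2 hb.2
    have h3 : edist (γ a) (γ b) ≤ eVariationOn γ (Ioo a b) := by
      have hc : ContinuousOn (fun p : ℝ × ℝ => edist (γ p.1) (γ p.2)) (Icc a b ×ˢ Icc a b) := by
        have hγ' : ContinuousOn γ (Icc a b) := hγ.mono (Icc_subset_Icc ha.1.1 hb.1.2)
        exact continuous_edist.comp_continuousOn
          ((hγ'.comp continuousOn_fst fun p hp => hp.1).prodMk
            (hγ'.comp continuousOn_snd fun p hp => hp.2))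
      have hcl : (a, b) ∈ closure (Ioo a b ×ˢ Ioo a b) := by
        rw [closure_prod_eq, closure_Ioo hab.ne]
        exact ⟨⟨le_rfl, hab.le⟩, ⟨hab.le, le_rfl⟩⟩
      have hw := (hc (a, b) ⟨⟨le_rfl, hab.le⟩, ⟨hab.le, le_rfl⟩⟩).mono
        (prod_mono Ioo_subset_Icc_self Ioo_subset_Icc_self)
      have := mem_closure_iff_nhdsWithin_neBot.1 hcl
      exact le_of_tendsto hw (eventually_nhdsWithin_of_forall fun p hp =>
        eVariationOn.edist_le γ hp.1 hp.2)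
    have h4 : edist (γ a) (γ b) ≤ M a b := by
      refine h3.trans ((eVariationOn.mono γ h1).trans ?_)
      refine le_trans ?_ (ENNReal.le_tsum ⟨_, _, hsub hm, rfl⟩)
      rw [if_pos h2]
    rw [dist_edist]
    exact ENNReal.toReal_mono (hM' _ _) h4
end

theorem main (N : ℕ) (hN : 14 ≤ N) : ∃ (K : Set (EuclideanSpace ℝ (Fin N)))
    (p q : EuclideanSpace ℝ (Fin N)), IsCompact K ∧ IsConnected K ∧ p ∈ K ∧ q ∈ K ∧
    ∀ γ : ℝ → EuclideanSpace ℝ (Fin N), ContinuousOn γ (Icc 0 1) → γ 0 = p → γ 1 = q →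
      ENNReal.ofReal (1 / 16000001) ≤ outLen γ K := by
  obtain ⟨K, p, q, u, k1, k2, k3, k4, k5, k6, k7⟩ := exK N hN
  refine ⟨K, p, q, k1, k2, k3, k4, fun γ hγ h0 h1 => ?_⟩
  by_cases hfin : outLen γ K = ⊤
  · rw [hfin]; exact le_top
  obtain ⟨L, L0, L1, L2, L3⟩ := exL k1.isClosed hγ hfin
  have hA : IsClosed {t | t ∈ Icc (0 : ℝ) 1 ∧ γ t ∈ K} :=
    hγ.preimage_isClosed_of_isClosed isClosed_Icc k1.isClosed
  have huc : ∀ ε > 0, ∃ h > 0, ∀ a ∈ {t | t ∈ Icc (0 : ℝ) 1 ∧ γ t ∈ K},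
      ∀ b ∈ {t | t ∈ Icc (0 : ℝ) 1 ∧ γ t ∈ K}, |a - b| ≤ h → dist (γ a) (γ b) ≤ ε := by
    intro ε hε
    obtain ⟨h, hh, k⟩ := Metric.uniformContinuousOn_iff_le.1
      (isCompact_Icc.uniformContinuousOn_of_continuous hγ) ε hε
    exact ⟨h, hh, fun a ha b hb hab => k a ha.1 b hb.1 hab⟩
  obtain ⟨h0', hp, hh0⟩ := huc 1 one_pos
  have := global_bd hA k6 L0 L1 L2 hp (fun s hs t ht hst hd =>
    local_bd hA (fun a ha => ha.2) k6 huc k7 L0 L1 L2 hh0 hs ht hst hd)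
    (s := 0) (t := 1) ⟨⟨le_rfl, zero_le_one⟩, h0 ▸ k3⟩ ⟨⟨zero_le_one, le_rfl⟩, h1 ▸ k4⟩ zero_le_one
  rw [h0, h1] at this
  rw [← ENNReal.ofReal_toReal hfin]
  refine ENNReal.ofReal_le_ofReal ?_
  linarith

end Pool.Agent.H.MP_5069ae_gt
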